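import Pool.Agent.N936.TC.Stm

set_option autoImplicit false

/-! Project TC (helper936), leaf TRANS: no nontrivial invariant clopen set (helper806). -/

namespace Pool.Agent.N806.TC

open Set Topology
open Pool.Agent.N936.TC

/-- `D` depends on the first `n` digits only -/
def Dep (D : Set Q) (n : ℕ) : Prop := ∀ x y : Q, (∀ k < n, x k = y k) → (x ∈ D ↔ y ∈ D)

lemma exists_cyl {D : Set Q} (hD : IsOpen D) {x : Q} (hx : x ∈ D) :
    ∃ n : ℕ, ∀ y : Q, (∀ k < n, y k = x k) → y ∈ D := by
  obtain ⟨J, u, hu, hs⟩ := isOpen_pi_iff.1 hD x hx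
  refine ⟨J.sup id + 1, fun y hy => hs ?_⟩
  intro a ha
  have h1 : a ≤ J.sup id := Finset.le_sup (f := id) ha
  rw [hy a (by omega)]
  exact (hu a ha).2

lemma open_cyl (x : Q) (n : ℕ) : IsOpen {y : Q | ∀ k < n, y k = x k} := by
  have h : {y : Q | ∀ k < n, y k = x k} =
      ⋂ k ∈ Finset.range n, (fun y : Q => y k) ⁻¹' {x k} := by
    ext y
    simp
  rw [h]
  exact isOpen_biInter_finset fun k _ => (isOpen_discrete _).preimage (continuous_apply k)

lemma dep_clopen {D : Set Q} (hD : IsClopen D) : ∃ n, Dep D n := by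
  classical
  have h : ∀ x : Q, ∃ n : ℕ, (∀ y : Q, (∀ k < n, y k = x k) → (y ∈ D ↔ x ∈ D)) := by
    intro x
    by_cases hx : x ∈ D
    · obtain ⟨n, hn⟩ := exists_cyl hD.2 hx
      exact ⟨n, fun y hy => ⟨fun _ => hx, fun _ => hn y hy⟩⟩
    · obtain ⟨n, hn⟩ := exists_cyl hD.1.isOpen_compl (x := x) hx
      exact ⟨n, fun y hy => ⟨fun h => absurd h (hn y hy), fun h => absurd h hx⟩⟩
  choose f hf using h
  obtain ⟨t, -, ht⟩ := (isCompact_univ (X := Q)).elim_nhds_subcover
    (fun x => {y : Q | ∀ k < f x, y k = x k})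
    (fun x _ => (open_cyl x (f x)).mem_nhds fun k _ => rfl)
  refine ⟨t.sup f, fun x y hxy => ?_⟩
  obtain ⟨z, hz, hxz⟩ := mem_iUnion₂.1 (ht (mem_univ x))
  have hle : f z ≤ t.sup f := Finset.le_sup hz
  have h1 : ∀ k < f z, x k = z k := hxz
  have h2 : ∀ k < f z, y k = z k := fun k hk => by rw [← hxy k (by omega), h1 k hk]
  rw [hf z x h1, hf z y h2]

/-- flip the digit `n` -/
def fl (n : ℕ) (x : Q) : Q := Function.update x n (!(x n))

lemma fl_self (n : ℕ) (x : Q) : fl n x n = !(x n) := by simp [fl]

lemma fl_ne {n k : ℕ} (h : k ≠ n) (x : Q) : fl n x k = x k := by simp [fl, h]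

lemma sgf_congr (typ : ℕ → Bool) (wd : ℕ → ℕ → Bool) (i : Bool) {x y : Q} {k : ℕ}
    (h : ∀ j ≤ k, x j = y j) : sgf typ wd i x k = sgf typ wd i y k := by
  unfold sgf
  have h1 : (∀ j < k, x j = wd k j) ↔ (∀ j < k, y j = wd k j) :=
    forall_congr' fun j => forall_congr' fun hj => by rw [h j hj.le]
  simp only [h1, h k le_rfl]

lemma sgf_fl (typ : ℕ → Bool) (wd : ℕ → ℕ → Bool) (i : Bool) (n : ℕ) (x : Q) :
    ∀ k < n + 1, sgf typ wd i (fl n x) k = fl n (sgf typ wd i x) k := by
  intro k hk
  rcases Nat.lt_succ_iff_lt_or_eq.1 hk with h | h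
  · rw [fl_ne h.ne]
    exact sgf_congr typ wd i fun j hj => fl_ne (by omega) x
  · subst h
    rw [fl_self]
    unfold sgf
    have h1 : (∀ j < k, fl k x j = wd k j) ↔ (∀ j < k, x j = wd k j) :=
      forall_congr' fun j => forall_congr' fun hj => by rw [fl_ne hj.ne]
    simp only [h1, fl_self]
    split_ifs <;> rfl

lemma agree_succ {n : ℕ} {x y : Q} (h : ∀ k < n, x k = y k) (h' : x n = y n) :
    ∀ k < n + 1, x k = y k := by
  intro k hk
  rcases Nat.lt_succ_iff_lt_or_eq.1 hk with h1 | h1
  · exact h k h1
  · rw [h1, h']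

lemma agree_fl {n : ℕ} {x y : Q} (h : ∀ k < n, x k = y k) (h' : x n ≠ y n) :
    ∀ k < n + 1, fl n x k = y k := by
  intro k hk
  rcases Nat.lt_succ_iff_lt_or_eq.1 hk with h1 | h1
  · rw [fl_ne h1.ne, h k h1]
  · rw [h1, fl_self]
    revert h'
    cases x n <;> cases y n <;> simp

section

variable (typ : ℕ → Bool) (wd : ℕ → ℕ → Bool)

/-- the contradiction in the last case -/
lemma last (n : ℕ) (D : Set Q) (hD : Dep D (n + 1))
    (hinv : ∀ i x, x ∈ D ↔ sgf typ wd i x ∈ D) (hE : ∀ x, ¬ (x ∈ D ↔ fl n x ∈ D)) : False := by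
  classical
  let b : Bool → ZMod 2 := fun c => if c then 1 else 0
  let m : Q → ZMod 2 := fun x => if x ∈ D then 1 else 0
  let e : Q → ZMod 2 := fun x => m x + b (x n)
  have hb : ∀ c, b (!c) = b c + 1 := by
    intro c
    cases c
    · simp [b]
    · show (0 : ZMod 2) = 1 + 1
      decide
  have hdep : ∀ x y : Q, (∀ k < n, x k = y k) → e x = e y := by
    intro x y h
    by_cases h' : x n = y n
    · have h1 := hD x y (agree_succ h h')
      simp only [e, m, h1, h']
    · have h1 := hD _ _ (agree_fl h h')
      have h2 := hE x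
      have h3 : y n = !(x n) := by
        revert h'
        cases x n <;> cases y n <;> simp
      have h4 : m y = m x + 1 := by
        simp only [m]
        by_cases hx : x ∈ D
        · have : y ∉ D := fun hy => h2 ⟨fun _ => h1.2 hy, fun _ => hx⟩
          rw [if_neg this, if_pos hx]
          decide
        · have : y ∈ D := by
            by_contra hy
            exact h2 ⟨fun h => absurd h hx, fun h => absurd (h1.1 h) hy⟩
          rw [if_pos this, if_neg hx]
          decide
      simp only [e]
      rw [h4, h3, hb]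
      have : (1 : ZMod 2) + 1 = 0 := by decide
      linear_combination (-1 : ZMod 2) * this
  let s : Q → Q := sgf typ wd (typ n)
  have hs : ∀ x, e (s x) + e x = if (∀ k < n, x k = wd n k) then 1 else 0 := by
    intro x
    have h1 : m (s x) = m x := by
      simp only [m, s, ← hinv (typ n) x]
    have two : (2 : ZMod 2) = 0 := by decide
    have h2 : s x n = if (∀ k < n, x k = wd n k) then !(x n) else x n := by
      simp only [s, sgf, true_and]
    simp only [e]
    rw [h1, h2]
    split_ifs with hc
    · rw [hb]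
      linear_combination (m x + b (x n)) * two
    · linear_combination (m x + b (x n)) * two
  let ext : (Fin n → Bool) → Q := fun w k => if h : k < n then w ⟨k, h⟩ else false
  let res : Q → (Fin n → Bool) := fun x j => x j
  let P : (Fin n → Bool) → (Fin n → Bool) := fun w => res (s (ext w))
  have hext : ∀ w (k : ℕ) (h : k < n), ext w k = w ⟨k, h⟩ := by
    intro w k h
    simp only [ext, dif_pos h]
  have hP : Function.Injective P := by
    intro w w' h
    have key : ∀ k : ℕ, ∀ hk : k < n, w ⟨k, hk⟩ = w' ⟨k, hk⟩ := by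
      intro k
      induction k using Nat.strong_induction_on with
      | _ k ih =>
        intro hk
        have h1 : s (ext w) k = s (ext w') k := congrFun h ⟨k, hk⟩
        simp only [s, sgf] at h1
        have h2 : (∀ j < k, ext w j = wd k j) ↔ (∀ j < k, ext w' j = wd k j) :=
          forall_congr' fun j => forall_congr' fun hj => by
            rw [hext w j (by omega), hext w' j (by omega), ih j hj (by omega)]
        rw [hext w k hk, hext w' k hk] at h1
        simp only [h2] at h1
        split_ifs at h1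
        · exact Bool.not_inj h1
        · exact h1
    funext j
    exact key j j.2
  have hPb : Function.Bijective P := Finite.injective_iff_bijective.1 hP
  have h1 : ∑ w : Fin n → Bool, e (ext (P w)) = ∑ w : Fin n → Bool, e (ext w) :=
    hPb.sum_comp (fun w => e (ext w))
  have h2 : ∀ w, e (ext (P w)) = e (s (ext w)) := by
    intro w
    apply hdep
    intro k hk
    rw [hext _ k hk]
  have h3 : ∑ w : Fin n → Bool, (e (s (ext w)) + e (ext w)) = 0 := by
    rw [Finset.sum_add_distrib]
    have : ∑ w : Fin n → Bool, e (s (ext w)) = ∑ w : Fin n → Bool, e (ext w) := by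
      rw [← h1]
      exact Finset.sum_congr rfl fun w _ => (h2 w).symm
    rw [this]
    have two : (2 : ZMod 2) = 0 := by decide
    rw [← two_mul, two, zero_mul]
  have h4 : ∑ w : Fin n → Bool, (e (s (ext w)) + e (ext w)) = 1 := by
    rw [Finset.sum_eq_single (fun j : Fin n => wd n j)]
    · rw [hs, if_pos]
      intro k hk
      exact hext (fun j : Fin n => wd n j) k hk
    · intro w _ hw
      rw [hs, if_neg]
      intro hc
      apply hw
      funext j
      rw [← hc j j.2, hext w j j.2]
    · intro h
      exact absurd (Finset.mem_univ _) h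
  rw [h3] at h4
  exact absurd h4 (by decide)

theorem main (n : ℕ) : ∀ D : Set Q, Dep D n → (∀ i x, x ∈ D ↔ sgf typ wd i x ∈ D) →
    D = ∅ ∨ D = univ := by
  induction n with
  | zero =>
    intro D hD _
    rcases D.eq_empty_or_nonempty with h | ⟨x, hx⟩
    · exact Or.inl h
    · right
      ext y
      exact ⟨fun _ => mem_univ _, fun _ => (hD x y (by intro k hk; omega)).1 hx⟩
  | succ n ih =>
    intro D hD hinv
    have hEdep : Dep {x | ¬ (x ∈ D ↔ fl n x ∈ D)} n := by
      intro x y h
      simp only [mem_ofPred_eq]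
      refine not_congr ?_
      by_cases h' : x n = y n
      · have h1 := hD x y (agree_succ h h')
        have h2 := hD (fl n x) (fl n y) (by
          intro k hk
          by_cases hkn : k = n
          · subst hkn
            rw [fl_self, fl_self, h']
          · rw [fl_ne hkn, fl_ne hkn]
            exact agree_succ h h' k hk)
        rw [h1, h2]
      · have h1 := hD _ _ (agree_fl h h')
        have h2 := hD _ _ (agree_fl (fun k hk => (h k hk).symm) (Ne.symm h'))
        rw [h1, h2]
        exact iff_comm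
    have hEinv : ∀ i x, x ∈ {x | ¬ (x ∈ D ↔ fl n x ∈ D)} ↔
        sgf typ wd i x ∈ {x | ¬ (x ∈ D ↔ fl n x ∈ D)} := by
      intro i x
      simp only [mem_ofPred_eq]
      refine not_congr ?_
      rw [← hinv i x, hinv i (fl n x), hD _ _ (sgf_fl typ wd i n x)]
    rcases ih _ hEdep hEinv with h | h
    · refine ih D (fun x y hxy => ?_) hinv
      by_cases h' : x n = y n
      · exact hD x y (agree_succ hxy h')
      · have h1 := hD _ _ (agree_fl hxy h')
        have h2 : x ∉ {x | ¬ (x ∈ D ↔ fl n x ∈ D)} := by rw [h]; exact notMem_empty _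
        simp only [mem_ofPred_eq, not_not] at h2
        exact h2.trans h1
    · exfalso
      refine last typ wd n D hD hinv fun x => ?_
      have h2 : x ∈ {x | ¬ (x ∈ D ↔ fl n x ∈ D)} := by rw [h]; exact mem_univ _
      exact h2

end

theorem t_trans : S_TRANS := by
  intro typ wd σ hσ D hD hinv
  obtain ⟨n, hn⟩ := dep_clopen hD
  refine main typ wd n D hn fun i x => ?_
  rw [← hσ]
  exact hinv i x

end Pool.Agent.N806.TC
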